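import Pool.Agent.SKQ.Kit

/-!
# Squad SKQ: change of variables for local maps, divergence of translates
-/

set_option autoImplicit false

namespace Pool.Agent.SKQ.H77

open Metric Set Filter Topology MeasureTheory
open scoped ENNReal
open Helper22QC

variable {n : ℕ}

theorem aesm_ball {R : ℝ} {f : E n → E n} {F : E n → Mt n} (h : Sob (ball 0 R) f F) :
    AEStronglyMeasurable F (volume.restrict (ball (0 : E n) R)) := by
  have h1 : ball (0 : E n) R = ⋃ k : ℕ, closedBall (0 : E n) (R - 1 / (k + 1)) := by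
    ext y
    rw [mem_iUnion]
    constructor
    · intro hy
      rw [mem_ball, dist_zero_right] at hy
      obtain ⟨k, hk⟩ := exists_nat_one_div_lt (sub_pos.2 hy)
      refine ⟨k, ?_⟩
      rw [mem_closedBall, dist_zero_right]
      linarith
    · rintro ⟨k, hk⟩
      rw [mem_closedBall, dist_zero_right] at hk
      rw [mem_ball, dist_zero_right]
      have : (0 : ℝ) < 1 / ((k : ℝ) + 1) := by positivity
      linarith
  have h2 : ∀ k : ℕ, closedBall (0 : E n) (R - 1 / (k + 1)) ⊆ ball 0 R := by
    intro k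
    rw [h1]
    exact subset_iUnion (fun k : ℕ => closedBall (0 : E n) (R - 1 / (k + 1))) k
  rw [h1, aestronglyMeasurable_iUnion_iff]
  intro k
  exact (h _ (h2 k) (isCompact_closedBall _ _)).meas

theorem K_pos {R K : ℝ} {f : E n → E n} {F : E n → Mt n} (hn : 1 ≤ n) (h : Loc R K f F)
    (hR : (ball (0 : E n) R).Nonempty) : 0 < K := by
  by_contra hK
  push Not at hK
  have h1 : ∀ᵐ y, y ∈ ball (0 : E n) R → ENNReal.ofReal (F y).det = 0 := by
    filter_upwards [h.qc] with y hy hyR
    have h2 := hy hyR
    rw [ENNReal.ofReal_eq_zero]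
    by_contra hd
    push Not at hd
    have h3 : K * (F y).det ≤ 0 := mul_nonpos_of_nonpos_of_nonneg hK hd.le
    have h4 : ‖F y‖ ^ n ≤ 0 := h2.trans h3
    have h5 : F y = 0 := by
      have h6 : ‖F y‖ ^ n = 0 := le_antisymm h4 (by positivity)
      exact norm_eq_zero.1 ((pow_eq_zero_iff (by omega)).1 h6)
    rw [h5] at hd
    have h6 : (0 : Mt n).det = 0 := by
      show LinearMap.det (0 : E n →ₗ[ℝ] E n) = 0
      rw [LinearMap.det_zero, finrank_euclideanSpace, Fintype.card_fin]
      exact zero_pow (by omega)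
    linarith
  have h7 := h.vol (fun _ => 1) measurable_const
  have h8 : ∫⁻ x in ball (0 : E n) R, 1 * ENNReal.ofReal (F x).det = 0 := by
    have h9 : ∀ᵐ y ∂(volume.restrict (ball (0 : E n) R)),
        1 * ENNReal.ofReal (F y).det = (fun _ : E n => (0 : ℝ≥0∞)) y := by
      refine (ae_restrict_iff' measurableSet_ball).2 ?_
      filter_upwards [h1] with y hy hyR
      rw [hy hyR, mul_zero]
    rw [lintegral_congr_ae h9, lintegral_zero]
  rw [h8, setLIntegral_one] at h7
  exact (h.isOpen_image.measure_pos volume (hR.image f)).ne h7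

/-- change of variables for nonnegative functions -/
theorem vol_nonneg {R K : ℝ} {f : E n → E n} {F : E n → Mt n} (h : Loc R K f F) (hK : 0 < K)
    {g : E n → ℝ} (hg : Measurable g) (hg0 : ∀ z, 0 ≤ g z)
    (hgi : IntegrableOn g (f '' ball 0 R)) :
    IntegrableOn (fun y => g (f y) * (F y).det) (ball 0 R) ∧
      ∫ y in ball 0 R, g (f y) * (F y).det = ∫ z in f '' ball 0 R, g z := by
  have hFm := aesm_ball h.sob
  have hdet : AEStronglyMeasurable (fun y => (F y).det) (volume.restrict (ball (0 : E n) R)) :=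
    ContinuousLinearMap.continuous_det.comp_aestronglyMeasurable hFm
  have hfm : AEMeasurable f (volume.restrict (ball (0 : E n) R)) :=
    h.cont.aemeasurable measurableSet_ball
  have hm : AEStronglyMeasurable (fun y => g (f y) * (F y).det)
      (volume.restrict (ball (0 : E n) R)) :=
    (hg.comp_aemeasurable hfm).aestronglyMeasurable.mul hdet
  have h0 : ∀ᵐ y ∂(volume.restrict (ball (0 : E n) R)), 0 ≤ (F y).det :=
    (ae_restrict_iff' measurableSet_ball).2 (h.det_nonneg hK)
  have h1 : ∀ᵐ y ∂(volume.restrict (ball (0 : E n) R)), 0 ≤ g (f y) * (F y).det := by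
    filter_upwards [h0] with y hy
    exact mul_nonneg (hg0 _) hy
  have h2 : ∫⁻ y in ball 0 R, ENNReal.ofReal (g (f y) * (F y).det) =
      ∫⁻ z in f '' ball 0 R, ENNReal.ofReal (g z) := by
    rw [← h.vol (fun z => ENNReal.ofReal (g z)) (ENNReal.measurable_ofReal.comp hg)]
    refine lintegral_congr fun y => ?_
    rw [ENNReal.ofReal_mul (hg0 _)]
  have h3 : ∫⁻ z in f '' ball 0 R, ENNReal.ofReal (g z) ≠ ⊤ := by
    have := hgi.2
    rw [hasFiniteIntegral_iff_ofReal (Eventually.of_forall hg0)] at this
    exact this.ne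
  refine ⟨⟨hm, ?_⟩, ?_⟩
  · rw [hasFiniteIntegral_iff_ofReal h1, h2]
    exact lt_top_iff_ne_top.2 h3
  · rw [integral_eq_lintegral_of_nonneg_ae h1 hm, h2,
      integral_eq_lintegral_of_nonneg_ae (Eventually.of_forall hg0)
        hg.aestronglyMeasurable]

/-- change of variables -/
theorem vol_int {R K : ℝ} {f : E n → E n} {F : E n → Mt n} (h : Loc R K f F) (hK : 0 < K)
    {g : E n → ℝ} (hg : Measurable g) (hgi : IntegrableOn g (f '' ball 0 R)) :
    IntegrableOn (fun y => g (f y) * (F y).det) (ball 0 R) ∧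
      ∫ y in ball 0 R, g (f y) * (F y).det = ∫ z in f '' ball 0 R, g z := by
  have hp := vol_nonneg h hK (g := fun z => max (g z) 0) (hg.max measurable_const)
    (fun z => le_max_right _ _) hgi.pos_part
  have hq := vol_nonneg h hK (g := fun z => max (-g z) 0) (hg.neg.max measurable_const)
    (fun z => le_max_right _ _) hgi.neg_part
  have e1 : ∀ t : ℝ, t = max t 0 - max (-t) 0 := by
    intro t
    rcases le_total 0 t with h1 | h1
    · rw [max_eq_left h1, max_eq_right (by linarith), sub_zero]
    · rw [max_eq_right h1, max_eq_left (by linarith)]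
      ring
  have e2 : (fun y => g (f y) * (F y).det) =
      fun y => max (g (f y)) 0 * (F y).det - max (-g (f y)) 0 * (F y).det := by
    funext y
    rw [← sub_mul, ← e1]
  have e3 : ∫ z in f '' ball 0 R, g z =
      ∫ z in f '' ball 0 R, (max (g z) 0 - max (-g z) 0) := by
    refine integral_congr_ae (Eventually.of_forall fun z => ?_)
    exact e1 (g z)
  refine ⟨?_, ?_⟩
  · rw [e2]
    exact hp.1.sub hq.1
  · rw [e2, e3, integral_sub hp.1 hq.1, integral_sub hgi.pos_part hgi.neg_part, hp.2, hq.2]

theorem dv_sub (G : E n → E n) (a z : E n) : dv (fun x => G (x - a)) z = dv G (z - a) := by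
  unfold dv
  refine Finset.sum_congr rfl fun i _ => ?_
  rw [fderiv_comp_sub]

theorem continuous_dv {G : E n → E n} (hG : ContDiff ℝ (⊤ : ℕ∞) G) : Continuous (dv G) := by
  unfold dv
  refine continuous_finsetSum _ fun i _ => ?_
  have h1 : Continuous fun z => fderiv ℝ G z (EuclideanSpace.single i 1) :=
    (hG.continuous_fderiv (by simp)).clm_apply continuous_const
  exact (EuclideanSpace.proj (𝕜 := ℝ) i).continuous.comp h1

end Pool.Agent.SKQ.H77
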