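import Pool.Agent.Helper77_SKQ.Base

/-!
# Row FLX of squad SKQ: equal flux
-/

set_option autoImplicit false

namespace Pool.Agent.SKQ.H77

open Metric Set Filter Topology MeasureTheory
open scoped ENNReal
open Helper22QC

variable {n : ℕ}

/-- a scale below which the map is controlled -/
theorem exists_scale {R K r : ℝ} {f : E n → E n} {F : E n → Mt n} {c : E n}
    (h : Loc R K f F) (hc : c ∈ ball (0 : E n) R) (hr : 0 < r) :
    ∃ ρ μ : ℝ, 0 < ρ ∧ ρ ≤ r ∧ ball c ρ ⊆ ball 0 R ∧ 0 < μ ∧ μ ≤ ρ ∧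
      ball (f c) μ ⊆ f '' ball 0 R ∧
      ∀ y ∈ ball (0 : E n) R, y ∉ ball c ρ → μ ≤ ‖f y - f c‖ ∧ μ ≤ ‖y - c‖ := by
  obtain ⟨r', hr', hsub⟩ := Metric.isOpen_iff.1 (isOpen_ball (x := (0 : E n)) (ε := R)) c hc
  have hρ : 0 < min r r' := lt_min hr hr'
  have hρs : ball c (min r r') ⊆ ball (0 : E n) R :=
    (ball_subset_ball (min_le_right _ _)).trans hsub
  have hop : IsOpen (f '' ball c (min r r')) := h.op _ hρs isOpen_ball
  obtain ⟨μ₁, hμ₁, hμs⟩ := Metric.isOpen_iff.1 hop (f c) ⟨c, mem_ball_self hρ, rfl⟩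
  refine ⟨min r r', min μ₁ (min r r'), hρ, min_le_left _ _, hρs, lt_min hμ₁ hρ,
    min_le_right _ _, ?_, ?_⟩
  · exact (ball_subset_ball (min_le_left _ _)).trans (hμs.trans (image_mono hρs))
  · intro y hy hyc
    constructor
    · by_contra hlt
      push Not at hlt
      obtain ⟨y', hy', he⟩ := hμs (show f y ∈ ball (f c) μ₁ by
        rw [mem_ball, dist_eq_norm]
        exact hlt.trans_le (min_le_left _ _))
      rw [h.inj (hρs hy') hy he] at hy'
      exact hyc hy'
    · rw [mem_ball, dist_eq_norm, not_lt] at hyc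
      exact (min_le_right _ _).trans hyc

theorem grc_fst (χ : E n → ℝ) (hχ : ContDiff ℝ (⊤ : ℕ∞) χ) (f : E n → E n) (F : E n → Mt n)
    (y : E n) : grc (fun p : E n × E n => χ p.1) f F y = gr (fderiv ℝ χ y) := by
  refine ext_inner_right ℝ fun v => ?_
  rw [inner_grc, inner_gr]
  have h1 : HasFDerivAt (fun p : E n × E n => χ p.1)
      ((fderiv ℝ χ y).comp (ContinuousLinearMap.fst ℝ (E n) (E n))) (y, f y) := by
    have h2 : HasFDerivAt χ (fderiv ℝ χ y) ((y, f y) : E n × E n).1 :=
      ((hχ.differentiable (by simp)) y).hasFDerivAt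
    exact h2.comp (y, f y) hasFDerivAt_fst
  rw [h1.fderiv]
  rfl

theorem flx (hnlg : NLGStmt) (hibp : IBPStmt) (hsmo : SMOStmt) : FLXStmt := by
  intro n R K r f F c χ hn hloc hc hr hχ hχc hχs hχr
  have hK := K_pos hn hloc ⟨c, hc⟩
  obtain ⟨ρ, μ, hρ, hρr, hρs, hμ, hμρ, hμs, hout⟩ := exists_scale hloc hc hr
  obtain ⟨-, hgs, hform⟩ := hsmo n μ hn hμ
  have hcomp : IsCompact (tsupport χ) := hχc
  -- the two fields
  have hG : ContDiff ℝ (⊤ : ℕ∞) (fun z : E n => gs μ (z - f c)) :=
    hgs.comp (contDiff_id.sub contDiff_const)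
  have hA : ContDiff ℝ (⊤ : ℕ∞) (fun z : E n => gs μ (z - c)) :=
    hgs.comp (contDiff_id.sub contDiff_const)
  have hΦ : ContDiff ℝ (⊤ : ℕ∞) (fun p : E n × E n => χ p.1) := hχ.comp contDiff_fst
  have hΦ0 : ∀ y, y ∉ tsupport χ → ∀ z : E n, (fun p : E n × E n => χ p.1) (y, z) = 0 :=
    fun y hy _ => image_eq_zero_of_notMem_tsupport hy
  obtain ⟨i1, i2, e1⟩ := hnlg n (ball 0 R) (tsupport χ) f _ F _ hn isOpen_ball hloc.sob hcomp
    hχs hG hΦ hΦ0
  obtain ⟨i3, e2⟩ := hibp n (ball 0 R) (tsupport χ) f _ F _ hn isOpen_ball hloc.sob hcomp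
    hχs hA hΦ hΦ0
  simp only [grc_fst χ hχ] at i1 e1 i3 e2
  simp only [dv_sub] at i2 e1 e2
  -- the divergence
  set D : E n → ℝ := dv (gs μ) with hD
  have hDc : Continuous D := continuous_dv hgs
  have hD0 : ∀ z : E n, μ ≤ ‖z‖ → D z = 0 := fun z hz => (hform z hz).2.2.2
  have hDs : HasCompactSupport D := by
    refine HasCompactSupport.intro (isCompact_closedBall (0 : E n) μ) fun z hz => hD0 z ?_
    rw [mem_closedBall, dist_zero_right, not_le] at hz
    exact hz.le
  have hDi : ∀ a : E n, Integrable (fun z => D (z - a)) := fun a =>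
    (hDc.integrable_of_hasCompactSupport hDs).comp_sub_right a
  have hDsup : ∀ (a : E n) (U : Set (E n)), ball a μ ⊆ U → ∫ z in U, D (z - a) = ∫ z, D z := by
    intro a U hU
    rw [setIntegral_eq_integral_of_forall_compl_eq_zero, integral_sub_right_eq_self D a]
    intro z hz
    refine hD0 _ ?_
    by_contra hlt
    push Not at hlt
    exact hz (hU (by rw [mem_ball, dist_eq_norm]; exact hlt))
  -- first integral
  have e3 : ∫ y in ball 0 R, χ y * D (f y - f c) * (F y).det = χ c * ∫ z, D z := by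
    have h1 : ∫ y in ball 0 R, χ y * D (f y - f c) * (F y).det =
        ∫ y in ball 0 R, χ c * (D (f y - f c) * (F y).det) := by
      refine setIntegral_congr_fun measurableSet_ball fun y hy => ?_
      by_cases hyc : y ∈ ball c ρ
      · show χ y * D (f y - f c) * (F y).det = _
        rw [hχr y (ball_subset_ball hρr hyc), mul_assoc]
      · show χ y * D (f y - f c) * (F y).det = χ c * (D (f y - f c) * (F y).det)
        rw [hD0 _ (hout y hy hyc).1]
        ring
    rw [h1, integral_const_mul]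
    have h2 := (vol_int hloc hK (g := fun z => D (z - f c))
      (hDc.measurable.comp (measurable_id.sub_const _)) (hDi (f c)).integrableOn).2
    rw [h2, hDsup (f c) _ hμs]
  have e4 : ∫ y in ball 0 R, χ y * D (y - c) = χ c * ∫ z, D z := by
    have h1 : ∫ y in ball 0 R, χ y * D (y - c) = ∫ y in ball 0 R, χ c * D (y - c) := by
      refine setIntegral_congr_fun measurableSet_ball fun y hy => ?_
      by_cases hyc : y ∈ ball c ρ
      · show χ y * D (y - c) = _
        rw [hχr y (ball_subset_ball hρr hyc)]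
      · show χ y * D (y - c) = χ c * D (y - c)
        rw [hD0 _ (hout y hy hyc).2]
        ring
    rw [h1, integral_const_mul, hDsup c _ ((ball_subset_ball hμρ).trans hρs)]
  -- the difference of the fields
  have hkey : ∀ y ∈ ball (0 : E n) R, inner ℝ (Gf f F c y) (gr (fderiv ℝ χ y)) =
      inner ℝ (adjV (F y) (gs μ (f y - f c))) (gr (fderiv ℝ χ y)) -
        inner ℝ (gs μ (y - c)) (gr (fderiv ℝ χ y)) := by
    intro y hy
    by_cases hyc : y ∈ ball c ρ
    · have h1 : fderiv ℝ χ y = 0 := by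
        have h2 : χ =ᶠ[𝓝 y] fun _ => χ c := by
          filter_upwards [isOpen_ball.mem_nhds hyc] with z hz
          exact hχr z (ball_subset_ball hρr hz)
        rw [h2.fderiv_eq, fderiv_fun_const]
        rfl
      rw [h1, gr_zero, inner_zero_right, inner_zero_right, inner_zero_right, sub_zero]
    · unfold Gf
      rw [(hform _ (hout y hy hyc).1).2.1, (hform _ (hout y hy hyc).2).2.1, inner_sub_left]
  have i4 : IntegrableOn (fun y => inner ℝ (adjV (F y) (gs μ (f y - f c))) (gr (fderiv ℝ χ y)) -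
        inner ℝ (gs μ (y - c)) (gr (fderiv ℝ χ y))) (ball 0 R) := i1.sub i3
  refine ⟨i4.congr_fun (fun y hy => (hkey y hy).symm) measurableSet_ball, ?_⟩
  rw [setIntegral_congr_fun measurableSet_ball hkey, integral_sub i1 i3, e1, e2, e3, e4]
  ring

end Pool.Agent.SKQ.H77
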