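import Pool.Agent.SKQ.Kit

/-!
# Row QSD of squad SKQ: quasisymmetry on annuli
-/

set_option autoImplicit false

namespace Pool.Agent.SKQ.H77

open Metric Set Filter Topology MeasureTheory
open scoped ENNReal
open Helper22QC

variable {n : ℕ}

/-- the maximum principle on balls -/
theorem max_sphere {R K t : ℝ} {f : E n → E n} {F : E n → Mt n} {c : E n} (hn : 1 ≤ n)
    (h : Loc R K f F) (hs : closedBall c t ⊆ ball 0 R) {y : E n} (hy : ‖y - c‖ ≤ t) :
    ∃ y₀, ‖y₀ - c‖ = t ∧ ‖f y - f c‖ ≤ ‖f y₀ - f c‖ := by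
  have hyc : y ∈ closedBall c t := by rwa [mem_closedBall, dist_eq_norm]
  have hcont : ContinuousOn (fun z => ‖f z - f c‖) (closedBall c t) :=
    ((h.cont.mono hs).sub continuousOn_const).norm
  obtain ⟨y₀, hy₀, hmax⟩ := (isCompact_closedBall c t).exists_isMaxOn ⟨y, hyc⟩ hcont
  refine ⟨y₀, ?_, hmax hyc⟩
  have h1 : ‖y₀ - c‖ ≤ t := by rwa [mem_closedBall, dist_eq_norm] at hy₀
  by_contra hne
  have hlt : y₀ ∈ ball c t := by
    rw [mem_ball, dist_eq_norm]
    exact lt_of_le_of_ne h1 hne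
  have hop : IsOpen (f '' ball c t) := h.op _ (ball_subset_closedBall.trans hs) isOpen_ball
  obtain ⟨ε, hε, hεs⟩ := Metric.isOpen_iff.1 hop (f y₀) ⟨y₀, hlt, rfl⟩
  set w : E n := EuclideanSpace.single (⟨0, by omega⟩ : Fin n) (ε / 2) with hw
  have hwn : ‖w‖ = ε / 2 := by
    rw [hw, PiLp.norm_single, Real.norm_of_nonneg (by positivity)]
  have key : ∀ w' : E n, ‖w'‖ = ε / 2 → ‖f y₀ - f c + w'‖ ≤ ‖f y₀ - f c‖ := by
    intro w' hw'
    obtain ⟨y₁, hy₁, he⟩ := hεs (show f y₀ + w' ∈ ball (f y₀) ε by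
      rw [mem_ball, dist_eq_norm, add_sub_cancel_left, hw']
      linarith)
    have h2 : ‖f y₁ - f c‖ ≤ ‖f y₀ - f c‖ := hmax (ball_subset_closedBall hy₁)
    have e1 : f y₀ - f c + w' = f y₁ - f c := by
      rw [he]
      abel
    rw [e1]
    exact h2
  have k1 := key w hwn
  have k2 := key (-w) (by rw [norm_neg, hwn])
  have par := parallelogram_law_with_norm ℝ (f y₀ - f c) w
  rw [← sub_eq_add_neg] at k2
  have k3 := mul_self_le_mul_self (norm_nonneg _) k1
  have k4 := mul_self_le_mul_self (norm_nonneg _) k2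
  rw [hwn] at par
  nlinarith

theorem qsd (hqsy : QSYStmt) : QSDStmt := by
  intro n hn
  obtain ⟨H, hH, hq⟩ := hqsy n hn
  have hn1 : (1 : ℝ) ≤ n := by exact_mod_cast (show 1 ≤ n by omega)
  refine ⟨(H + 1) ^ 2 * H, ?_, ?_⟩
  · have : (1 : ℝ) ≤ (H + 1) ^ 2 := one_le_pow₀ (by linarith)
    nlinarith
  intro R s f F c hloc hs hball y hy y' hy'
  have hsub : ∀ (m : E n) (t : ℝ), ‖m - c‖ + t ≤ 100 * n * s → closedBall m t ⊆ ball 0 R := by
    intro m t hmt
    refine subset_trans ?_ hball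
    intro z hz
    rw [mem_closedBall] at hz ⊢
    refine (dist_triangle z m c).trans ?_
    rw [dist_eq_norm m c]
    linarith
  have main : ∀ (k : ℕ) (y : E n), ‖y - c‖ ≤ 4 * s → ‖y - c‖ ≤ 2 ^ k * ‖y' - c‖ →
      ‖f y - f c‖ ≤ (H + 1) ^ k * H * ‖f y' - f c‖ := by
    intro k
    induction k with
    | zero =>
      intro y hy4 hyk
      rw [pow_zero, one_mul] at hyk
      rw [pow_zero, one_mul]
      have ht := hy'.2
      obtain ⟨y₀, h1, h2⟩ := max_sphere (by omega) hloc (hsub c ‖y' - c‖ (by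
        rw [sub_self, norm_zero]
        nlinarith)) hyk
      refine h2.trans (hq R ‖y' - c‖ f F c hloc (hs.trans_le hy'.1) (hsub c _ (by
        rw [sub_self, norm_zero]
        nlinarith)) y₀ y' h1 rfl)
    | succ k ih =>
      intro y hy4 hyk
      rcases eq_or_ne y c with rfl | hyc
      · rw [sub_self, norm_zero]
        positivity
      have hpos : 0 < ‖y - c‖ := norm_pos_iff.2 (sub_ne_zero.2 hyc)
      set m : E n := c + (1 / 2 : ℝ) • (y - c) with hm
      have e1 : ‖m - c‖ = ‖y - c‖ / 2 := by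
        rw [hm, add_sub_cancel_left, norm_smul, Real.norm_of_nonneg (by norm_num)]
        ring
      have e2 : ‖y - m‖ = ‖y - c‖ / 2 := by
        have : y - m = (1 / 2 : ℝ) • (y - c) := by
          rw [hm]
          module
        rw [this, norm_smul, Real.norm_of_nonneg (by norm_num)]
        ring
      have e3 : ‖c - m‖ = ‖y - c‖ / 2 := by rw [norm_sub_rev, e1]
      have h1 := hq R (‖y - c‖ / 2) f F m hloc (by positivity) (hsub m _ (by
        rw [e1]
        nlinarith)) y c e2 e3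
      have h2 := ih m (by rw [e1]; linarith) (by
        rw [e1]
        rw [pow_succ] at hyk
        linarith)
      have h3 : ‖f y - f c‖ ≤ ‖f y - f m‖ + ‖f m - f c‖ := by
        have := norm_add_le (f y - f m) (f m - f c)
        rwa [sub_add_sub_cancel] at this
      rw [norm_sub_rev (f c)] at h1
      calc ‖f y - f c‖ ≤ (H + 1) * ‖f m - f c‖ := by linarith
        _ ≤ (H + 1) * ((H + 1) ^ k * H * ‖f y' - f c‖) :=
            mul_le_mul_of_nonneg_left h2 (by linarith)
        _ = (H + 1) ^ (k + 1) * H * ‖f y' - f c‖ := by ring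
  refine main 2 y hy.2 ?_
  have := hy.2
  have := hy'.1
  linarith

end Pool.Agent.SKQ.H77
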